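import Pool.Agent.KDT.StmtsK

set_option autoImplicit false

/-! Squad KDT, row DTB: size of a determinant. -/

namespace Pool.Agent.KDT.H89

theorem term_le {E : Type} [Field E] (v : AbsoluteValue E ℝ) {n : Type} [Fintype n]
    [DecidableEq n] (M : Matrix n n E) (r c : n → ℝ) (hr : ∀ j, 0 ≤ r j)
    (h : ∀ j e, v (M j e) ≤ r j * c e) (σ : Equiv.Perm n) :
    v ((Equiv.Perm.sign σ : ℤ) * ∏ i, M (σ i) i) ≤ (∏ j, r j) * ∏ e, c e := by
  have h1 : v ((Equiv.Perm.sign σ : ℤ) : E) = 1 := by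
    rcases Int.units_eq_one_or (Equiv.Perm.sign σ) with h2 | h2 <;> rw [h2] <;> simp
  rw [map_mul, h1, one_mul, map_prod]
  calc ∏ i, v (M (σ i) i) ≤ ∏ i, r (σ i) * c i :=
        Finset.prod_le_prod (fun i _ => v.nonneg _) fun i _ => h _ _
    _ = (∏ i, r (σ i)) * ∏ i, c i := Finset.prod_mul_distrib
    _ = (∏ j, r j) * ∏ e, c e := by rw [Equiv.prod_comp σ r]

theorem dtb : DtbStatement := by
  classical
  intro E _ v n _ _ M r c hr hc h
  have hX : 0 ≤ (∏ j, r j) * ∏ e, c e :=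
    mul_nonneg (Finset.prod_nonneg fun j _ => hr j) (Finset.prod_nonneg fun e _ => hc e)
  constructor
  · rw [Matrix.det_apply']
    refine (v.sum_le _ _).trans ?_
    refine (Finset.sum_le_sum fun σ _ => term_le v M r c hr h σ).trans ?_
    rw [Finset.sum_const, Finset.card_univ, Fintype.card_perm, nsmul_eq_mul]
  · intro hv
    rw [Matrix.det_apply']
    obtain ⟨σ, -, hσ⟩ := IsNonarchimedean.finset_image_add_of_nonempty hv
      (fun σ : Equiv.Perm n => ((Equiv.Perm.sign σ : ℤ) : E) * ∏ i, M (σ i) i)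
      (Finset.univ_nonempty (α := Equiv.Perm n))
    exact hσ.trans (term_le v M r c hr h σ)

end Pool.Agent.KDT.H89
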