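import Pool.Agent.KDT.StmtsZ

/-!
KDT (MP_160b6c_nt), block Z, row ZFI: the zero estimate from its steps.
-/

set_option autoImplicit false

namespace Pool.Agent.KDT.H89

open Polynomial H58Q Pool.Agent.SZT Pool.Agent.KDT.Z

/-! ### Mumford vectors -/

section vec

variable {F : Type} [Field F]

/-- the vector of a Mumford pair -/
def vec (A B : F[X]) : Fin 4 → F := ![-A.coeff 1, A.coeff 0, B.coeff 0, B.coeff 1]

theorem vec0 (A B : F[X]) : vec A B 0 = -A.coeff 1 := rfl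
theorem vec1 (A B : F[X]) : vec A B 1 = A.coeff 0 := rfl
theorem vec2 (A B : F[X]) : vec A B 2 = B.coeff 0 := rfl
theorem vec3 (A B : F[X]) : vec A B 3 = B.coeff 1 := rfl

theorem pA_vec {A B : F[X]} (hA : A.Monic) (h2 : A.natDegree = 2) : pA (vec A B) = A := by
  rw [pA, vec0, vec1]
  have h := hA.as_sum
  rw [h2] at h
  rw [Finset.sum_range_succ, Finset.sum_range_one, pow_zero, mul_one, pow_one] at h
  conv_rhs => rw [h]
  rw [C_neg]
  ring

theorem pB_vec {A B : F[X]} (hd : B.degree < A.degree) (h2 : A.natDegree = 2) (hA : A.Monic) :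
    pB (vec A B) = B := by
  rw [pB, vec2, vec3]
  have hA2 : A.degree = 2 := by
    rw [Polynomial.degree_eq_natDegree hA.ne_zero, h2]
    rfl
  rw [hA2] at hd
  have h1 : B.natDegree < 2 := by
    by_cases hB : B = 0
    · rw [hB]
      simp
    · rw [Polynomial.degree_eq_natDegree hB] at hd
      exact_mod_cast hd
  have h := B.as_sum_range' 2 h1
  rw [Finset.sum_range_succ, Finset.sum_range_one, ← C_mul_X_pow_eq_monomial,
    ← C_mul_X_pow_eq_monomial, pow_zero, mul_one, pow_one] at h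
  conv_rhs => rw [h]
  ring

theorem on_vec {f A B : F[X]} (hm : Mum f A B) (h2 : A.natDegree = 2) : On f (vec A B) := by
  rw [On, pA_vec hm.monic h2, pB_vec hm.deg h2 hm.monic]
  exact hm.dvd

theorem pA_c1 (q : Fin 4 → F) : (pA q).coeff 1 = -q 0 := by
  simp [pA, Polynomial.coeff_X_pow]

theorem pA_c0 (q : Fin 4 → F) : (pA q).coeff 0 = q 1 := by
  simp [pA]

theorem pB_c1 (q : Fin 4 → F) : (pB q).coeff 1 = q 3 := by
  simp [pB]

end vec

/-! ### the Kummer coordinates as polynomials in the Mumford vector -/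

section kumP

variable {K : Type} [Field K]

/-- the Kummer coordinates -/
noncomputable def kumP (f : K[X]) : Fin 4 → MvPolynomial (Fin 4) K :=
  ![1, MvPolynomial.X 0, MvPolynomial.X 1,
    MvPolynomial.X 3 ^ 2 - MvPolynomial.X 0 ^ 3 + MvPolynomial.X 0 * MvPolynomial.X 1 -
      MvPolynomial.C (f.coeff 4) * MvPolynomial.X 0 ^ 2 -
      MvPolynomial.C (f.coeff 3) * MvPolynomial.X 0 - MvPolynomial.C (f.coeff 2)]

theorem kumP_deg (f : K[X]) (i : Fin 4) : (kumP f i).totalDegree ≤ 3 := by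
  have hX : ∀ (j : Fin 4) (n : ℕ), (MvPolynomial.X j ^ n : MvPolynomial (Fin 4) K).totalDegree ≤ n := by
    intro j n
    refine le_trans (MvPolynomial.totalDegree_pow _ _) ?_
    rw [MvPolynomial.totalDegree_X, mul_one]
  have hC : ∀ (c : K) (P : MvPolynomial (Fin 4) K), P.totalDegree ≤ 3 →
      (MvPolynomial.C c * P).totalDegree ≤ 3 := by
    intro c P hP
    refine le_trans (MvPolynomial.totalDegree_mul _ _) ?_
    rw [MvPolynomial.totalDegree_C, zero_add]
    exact hP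
  have hs : ∀ P Q : MvPolynomial (Fin 4) K, P.totalDegree ≤ 3 → Q.totalDegree ≤ 3 →
      (P - Q).totalDegree ≤ 3 := fun P Q hP hQ =>
    le_trans (MvPolynomial.totalDegree_sub _ _) (max_le hP hQ)
  have ha : ∀ P Q : MvPolynomial (Fin 4) K, P.totalDegree ≤ 3 → Q.totalDegree ≤ 3 →
      (P + Q).totalDegree ≤ 3 := fun P Q hP hQ =>
    le_trans (MvPolynomial.totalDegree_add _ _) (max_le hP hQ)
  have hX1 : ∀ j : Fin 4, (MvPolynomial.X j : MvPolynomial (Fin 4) K).totalDegree ≤ 3 := by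
    intro j
    rw [MvPolynomial.totalDegree_X]
    norm_num
  fin_cases i
  · change (1 : MvPolynomial (Fin 4) K).totalDegree ≤ 3
    rw [MvPolynomial.totalDegree_one]
    norm_num
  · exact hX1 0
  · exact hX1 1
  · change (MvPolynomial.X 3 ^ 2 - MvPolynomial.X 0 ^ 3 + MvPolynomial.X 0 * MvPolynomial.X 1 -
      MvPolynomial.C (f.coeff 4) * MvPolynomial.X 0 ^ 2 -
      MvPolynomial.C (f.coeff 3) * MvPolynomial.X 0 - MvPolynomial.C (f.coeff 2) :
        MvPolynomial (Fin 4) K).totalDegree ≤ 3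
    refine hs _ _ (hs _ _ (hs _ _ (ha _ _ (hs _ _ ?_ (hX 0 3)) ?_) ?_) ?_) ?_
    · exact le_trans (hX 3 2) (by norm_num)
    · refine le_trans (MvPolynomial.totalDegree_mul _ _) ?_
      rw [MvPolynomial.totalDegree_X, MvPolynomial.totalDegree_X]
      norm_num
    · exact hC _ _ (le_trans (hX 0 2) (by norm_num))
    · exact hC _ _ (hX1 0)
    · rw [MvPolynomial.totalDegree_C]
      norm_num

theorem kumP_eval {E : Type} [Field E] (φ : K →+* E) (f : K[X]) (q : Fin 4 → E) :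
    (fun i => MvPolynomial.eval₂ φ q (kumP f i)) = kum (f.map φ) (pA q) (pB q) := by
  funext i
  fin_cases i
  · change MvPolynomial.eval₂ φ q 1 = 1
    simp
  · change MvPolynomial.eval₂ φ q (MvPolynomial.X 0) = -(pA q).coeff 1
    rw [pA_c1]
    simp
  · change MvPolynomial.eval₂ φ q (MvPolynomial.X 1) = (pA q).coeff 0
    rw [pA_c0]
    simp
  · change MvPolynomial.eval₂ φ q (MvPolynomial.X 3 ^ 2 - MvPolynomial.X 0 ^ 3 +
      MvPolynomial.X 0 * MvPolynomial.X 1 - MvPolynomial.C (f.coeff 4) * MvPolynomial.X 0 ^ 2 -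
      MvPolynomial.C (f.coeff 3) * MvPolynomial.X 0 - MvPolynomial.C (f.coeff 2)) =
      ((pB q).coeff 1) ^ 2 - (-(pA q).coeff 1) ^ 3 + (-(pA q).coeff 1) * (pA q).coeff 0
      - (f.map φ).coeff 4 * (-(pA q).coeff 1) ^ 2
      - (f.map φ).coeff 3 * (-(pA q).coeff 1) - (f.map φ).coeff 2
    rw [pA_c1, pA_c0, pB_c1, Polynomial.coeff_map, Polynomial.coeff_map, Polynomial.coeff_map]
    simp [MvPolynomial.eval₂_sub, MvPolynomial.eval₂_add, MvPolynomial.eval₂_mul,
      MvPolynomial.eval₂_pow]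

theorem totalDegree_bind (h : Fin 4 → MvPolynomial (Fin 4) K) (b : ℕ)
    (hb : ∀ i, (h i).totalDegree ≤ b) (P : MvPolynomial (Fin 4) K) :
    (MvPolynomial.bind₁ h P).totalDegree ≤ b * P.totalDegree := by
  rw [MvPolynomial.bind₁, MvPolynomial.aeval_def, MvPolynomial.eval₂_eq']
  refine MvPolynomial.totalDegree_finsetSum_le fun d hd => ?_
  refine le_trans (MvPolynomial.totalDegree_mul _ _) ?_
  have h0 : (algebraMap K (MvPolynomial (Fin 4) K) (MvPolynomial.coeff d P)).totalDegree = 0 := by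
    rw [MvPolynomial.algebraMap_eq, MvPolynomial.totalDegree_C]
  rw [h0, zero_add]
  refine le_trans (MvPolynomial.totalDegree_finsetProd _ _) ?_
  have h1 : ∀ i ∈ (Finset.univ : Finset (Fin 4)), (h i ^ d i).totalDegree ≤ d i * b := by
    intro i _
    exact le_trans (MvPolynomial.totalDegree_pow _ _) (Nat.mul_le_mul le_rfl (hb i))
  refine le_trans (Finset.sum_le_sum h1) ?_
  rw [← Finset.sum_mul, mul_comm]
  refine Nat.mul_le_mul le_rfl ?_
  have h2 := MvPolynomial.le_totalDegree hd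
  rwa [Finsupp.sum_fintype _ _ (fun _ => rfl)] at h2

/-- `P` at the Kummer coordinates -/
noncomputable def GP (f : K[X]) (P : MvPolynomial (Fin 4) K) : MvPolynomial (Fin 4) K :=
  MvPolynomial.bind₁ (kumP f) P

theorem GP_deg (f : K[X]) (P : MvPolynomial (Fin 4) K) (e : ℕ) (h : P.totalDegree ≤ e) :
    (GP f P).totalDegree ≤ 3 * e :=
  le_trans (totalDegree_bind _ 3 (kumP_deg f) P) (Nat.mul_le_mul le_rfl h)

theorem GP_eval {E : Type} [Field E] (φ : K →+* E) (f : K[X]) (P : MvPolynomial (Fin 4) K)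
    (q : Fin 4 → E) : MvPolynomial.eval₂ φ q (GP f P) =
      MvPolynomial.eval₂ φ (kum (f.map φ) (pA q) (pB q)) P := by
  have h := MvPolynomial.eval₂Hom_bind₁ φ q (kumP f) P
  rw [MvPolynomial.coe_eval₂Hom] at h
  rw [GP, h, ← kumP_eval]
  rfl

theorem kum_map {E : Type} [Field E] (φ : K →+* E) (f A B : K[X]) (i : Fin 4) :
    kum (f.map φ) (A.map φ) (B.map φ) i = φ (kum f A B i) := by
  fin_cases i
  · change (1 : E) = φ 1
    rw [map_one]
  · change -(A.map φ).coeff 1 = φ (-A.coeff 1)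
    rw [Polynomial.coeff_map, map_neg]
  · change (A.map φ).coeff 0 = φ (A.coeff 0)
    rw [Polynomial.coeff_map]
  · change ((B.map φ).coeff 1) ^ 2 - (-(A.map φ).coeff 1) ^ 3 +
        (-(A.map φ).coeff 1) * (A.map φ).coeff 0
      - (f.map φ).coeff 4 * (-(A.map φ).coeff 1) ^ 2
      - (f.map φ).coeff 3 * (-(A.map φ).coeff 1) - (f.map φ).coeff 2 =
      φ ((B.coeff 1) ^ 2 - (-A.coeff 1) ^ 3 + (-A.coeff 1) * A.coeff 0 -
        f.coeff 4 * (-A.coeff 1) ^ 2 - f.coeff 3 * (-A.coeff 1) - f.coeff 2)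
    simp only [Polynomial.coeff_map, map_sub, map_add, map_mul, map_pow, map_neg]

theorem vec_map {E : Type} [Field E] (φ : K →+* E) (A B : K[X]) :
    vec (A.map φ) (B.map φ) = fun i => φ (vec A B i) := by
  funext i
  fin_cases i
  · change -(A.map φ).coeff 1 = φ (-A.coeff 1)
    rw [Polynomial.coeff_map, map_neg]
  · change (A.map φ).coeff 0 = φ (A.coeff 0)
    rw [Polynomial.coeff_map]
  · change (B.map φ).coeff 0 = φ (B.coeff 0)
    rw [Polynomial.coeff_map]
  · change (B.map φ).coeff 1 = φ (B.coeff 1)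
    rw [Polynomial.coeff_map]

theorem mum_map {E : Type} [Field E] (φ : K →+* E) {f A B : K[X]} (h : Mum f A B) :
    Mum (f.map φ) (A.map φ) (B.map φ) where
  monic := h.monic.map φ
  deg := by
    rw [Polynomial.degree_map, Polynomial.degree_map]
    exact h.deg
  dvd := by
    have := Polynomial.map_dvd φ h.dvd
    rwa [Polynomial.map_sub, Polynomial.map_pow] at this

end kumP

/-! ### classes -/

section cls

variable {F : Type} [Field F] (f : F[X]) [Fact (Odd f.natDegree)] [IsDedekindDomain (Q F f)]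

omit [IsDedekindDomain (Q F f)] in
theorem nzd {I : Ideal (Q F f)} (h : I ≠ ⊥) : I ∈ nonZeroDivisors (Ideal (Q F f)) :=
  mem_nonZeroDivisors_iff_ne_zero.mpr h

theorem clI_mk {I : Ideal (Q F f)} (h : I ∈ nonZeroDivisors (Ideal (Q F f))) :
    clI f I = Additive.ofMul (ClassGroup.mk0 ⟨I, h⟩) := by
  rw [clI, dif_pos h]

theorem clI_pow {I : Ideal (Q F f)} (h : I ≠ ⊥) (j : ℕ) : clI f (I ^ j) = j • clI f I := by
  have h1 : I ^ j ≠ ⊥ := by
    have : I ^ j ≠ 0 := pow_ne_zero j h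
    exact this
  rw [clI_mk f (nzd f h), clI_mk f (nzd f h1), ← ofMul_pow, ← map_pow]
  rfl

theorem clI_zero {I : Ideal (Q F f)} (h : I ≠ ⊥) : clI f I = 0 ↔ I.IsPrincipal := by
  rw [clI_mk f (nzd f h), ofMul_eq_zero, ClassGroup.mk0_eq_one_iff]

theorem clI_same {I I' : Ideal (Q F f)} (h : I ≠ ⊥) (h' : I' ≠ ⊥) (hs : SameCl I I') :
    clI f I = clI f I' := by
  rw [clI_mk f (nzd f h), clI_mk f (nzd f h')]
  congr 1
  rw [ClassGroup.mk0_eq_mk0_iff]
  obtain ⟨a, b, ha, hb, hab⟩ := hs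
  exact ⟨a, b, ha, hb, hab⟩

omit [Fact (Odd f.natDegree)] [IsDedekindDomain (Q F f)] in
theorem MI_ne (A B : F[X]) : MI f A B ≠ ⊥ := by
  intro h
  have h1 : (⟨-B, 1⟩ : Q F f) ∈ MI f A B := Ideal.subset_span (by simp)
  rw [h, Ideal.mem_bot] at h1
  have := congrArg QuadraticAlgebra.im h1
  simp at this

end cls

/-! ### the cyclic group -/

theorem cyc {J : Type} [AddCommGroup J] (c : J) (N : ℕ) (hN : 0 < N)
    (hc : ∀ j : ℕ, j • c = 0 ↔ N ∣ j) :
    Nat.card (AddSubgroup.zmultiples c) = N ∧ Finite (AddSubgroup.zmultiples c) ∧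
      ∀ γ ∈ AddSubgroup.zmultiples c, ∃ j < N, γ = j • c := by
  classical
  have ho : addOrderOf c = N := by
    refine Nat.dvd_antisymm ?_ ?_
    · rw [addOrderOf_dvd_iff_nsmul_eq_zero]
      exact (hc N).mpr dvd_rfl
    · rw [← hc, addOrderOf_nsmul_eq_zero]
  have hcard : Nat.card (AddSubgroup.zmultiples c) = N := by
    rw [Nat.card_zmultiples, ho]
  have hfin : IsOfFinAddOrder c := by
    rw [← addOrderOf_pos_iff, ho]
    exact hN
  refine ⟨hcard, Nat.finite_of_card_ne_zero (by rw [hcard]; exact hN.ne'), fun γ hγ => ?_⟩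
  rw [hfin.mem_zmultiples_iff_mem_range_addOrderOf, Finset.mem_image] at hγ
  obtain ⟨j, hj, hj'⟩ := hγ
  rw [Finset.mem_range, ho] at hj
  exact ⟨j, hj, hj'.symm⟩

theorem sqrt_bound (e N : ℕ) : (e : ℝ) * (Real.sqrt N + 1) ≤ ((2 * e : ℕ) : ℝ) *
    ((Nat.sqrt N : ℕ) + 1) := by
  have h1 : Real.sqrt N ≤ (Nat.sqrt N : ℝ) + 1 := by
    rw [Real.sqrt_le_left (by positivity)]
    have h2 := Nat.lt_succ_sqrt N
    have h3 : (N : ℝ) < ((Nat.sqrt N : ℝ) + 1) * ((Nat.sqrt N : ℝ) + 1) := by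
      exact_mod_cast h2
    nlinarith
  have h4 : (0 : ℝ) ≤ (Nat.sqrt N : ℝ) := by positivity
  have h5 : (0 : ℝ) ≤ (e : ℝ) := by positivity
  push_cast
  nlinarith

/-! ### the assembly -/

theorem sqf_map {K E : Type} [Field K] [Field E] [CharZero K] (φ : K →+* E) (f : K[X])
    (h : Squarefree f) : Squarefree (f.map φ) :=
  ((PerfectField.separable_iff_squarefree.mpr h).map (f := φ)).squarefree

/-- **Row ZFI.** -/
theorem zzfi (h1 : NrmStatement) (h2 : TdoStatement) (h3 : JkeStatement) (h4 : FunStatement)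
    (h5 : StbStatement) (h6 : StcStatement) (h7 : StdStatement) (h8 : SbgStatement)
    (h9 : StfStatement) (h10 : StgStatement) (h11 : UBT.DedStmt) (_h12 : EmbStatement) :
    ZfiStatement := by
  intro e
  obtain ⟨C0, hC0⟩ := h1 (3 * e)
  set n : ℕ := max C0 (2 * e) with hn
  obtain ⟨N0, hN0⟩ := h5 n
  obtain ⟨m1, N1, hN1⟩ := h6 n (8 * (n + 1))
  obtain ⟨b, hb⟩ := h9 n
  obtain ⟨BG, hBG⟩ := h10 n
  refine ⟨max (max N0 N1) (max (4 * m1 * b) BG), ?_⟩
  intro K _ _ f hf h5' hsf P hP hpt I N hI hN hord hexc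
  by_cases hNB : N ≤ max (max N0 N1) (max (4 * m1 * b) BG)
  · exact Or.inl hNB
  right
  have hNB := not_le.mp hNB
  have hN_0 : N0 ≤ N := le_of_lt (lt_of_le_of_lt (le_trans (le_max_left _ _) (le_max_left _ _)) hNB)
  have hN_1 : N1 ≤ N := le_of_lt (lt_of_le_of_lt (le_trans (le_max_right _ _) (le_max_left _ _)) hNB)
  have hN_2 : 4 * m1 * b < N := lt_of_le_of_lt (le_trans (le_max_left _ _) (le_max_right _ _)) hNB
  have hBB : BG ≤ max (max N0 N1) (max (4 * m1 * b) BG) :=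
    le_trans (le_max_right _ _) (le_max_right _ _)
  -- the plane curve
  obtain ⟨Φ0, hΦ0, hΦd, hΦz⟩ := hC0 K f hf h5' hsf (GP f P) (GP_deg f P e hP) (by
    obtain ⟨E, hE, φ, A, B, hm, hA2, hdisc, hne⟩ := hpt
    refine ⟨E, hE, φ, vec A B, on_vec hm hA2, ?_, ?_⟩
    · rw [vec0, vec1, neg_sq]
      exact hdisc
    · rw [GP_eval, pA_vec hm.monic hA2, pB_vec hm.deg hA2 hm.monic]
      exact hne)
  -- the fields
  set k : Type := AlgebraicClosure K with hk
  set φ : K →+* k := algebraMap K k with hφ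
  set fk : k[X] := f.map φ with hfk
  obtain ⟨U, fU, aU, hUc, hUt, hUne⟩ := h2 k
  set g : U[X] := fk.map (algebraMap k U) with hg
  have hchk : CharZero k := charZero_of_injective_ringHom φ.injective
  have hfkm : fk.Monic := hf.map φ
  have hfk5 : fk.natDegree = 5 := by
    rw [hfk, Polynomial.natDegree_map]
    exact h5'
  have hfks : Squarefree fk := sqf_map φ f hsf
  have henv : Env k U fk g :=
    { kc := inferInstance
      oc := hUc
      ch := hchk
      td := hUt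
      ne := hUne
      mo := hfkm
      d5 := hfk5
      sf := hfks
      gm := hg }
  have hodd : Fact (Odd f.natDegree) := ⟨by rw [h5']; decide⟩
  have hoddk : Fact (Odd fk.natDegree) := ⟨by rw [hfk5]; decide⟩
  have hded : IsDedekindDomain (Q K f) := h11 K f two_ne_zero hsf
  have hdedk : IsDedekindDomain (Q k fk) := h11 k fk two_ne_zero hfks
  obtain ⟨J, hJ, th, cl, act, Jk, ι, hJK, hιi, hιr, hιc⟩ := h3 k U fk g henv
  obtain ⟨m, hmi, hmm⟩ := h4 K k φ f fk hfk hf h5' hsf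
  -- the class
  set c : J := ι (m (clI f I)) with hc
  have hcj : ∀ j : ℕ, j • c = ι (m (clI f (I ^ j))) := by
    intro j
    rw [clI_pow f hI, map_nsmul, map_nsmul]
  have hco : ∀ j : ℕ, j • c = 0 ↔ N ∣ j := by
    intro j
    rw [hcj, map_eq_zero_iff ι hιi, map_eq_zero_iff m hmi, ← hord j]
    exact clI_zero f (pow_ne_zero j hI)
  obtain ⟨hcard, hΓf, hΓj⟩ := cyc c N hN hco
  set Γ : AddSubgroup J := AddSubgroup.zmultiples c with hΓ
  have hιJ : ∀ x, ι x ∈ Jk := fun x => by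
    rw [← hιr]
    exact ⟨x, rfl⟩
  have hΓJ : Γ ≤ Jk := by
    rw [hΓ, AddSubgroup.zmultiples_le]
    exact hιJ _
  -- the exceptional set
  set Φk : MvPolynomial (Fin 2) k := MvPolynomial.map φ Φ0 with hΦk
  have hΦk0 : Φk ≠ 0 := by
    intro h
    exact hΦ0 (MvPolynomial.map_injective φ φ.injective (by rw [← hΦk, h, map_zero]))
  have hΦkd : Φk.totalDegree ≤ n := by
    refine le_trans ?_ (le_trans hΦd (le_max_left _ _))
    rw [MvPolynomial.totalDegree, MvPolynomial.totalDegree]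
    exact Finset.sup_mono (MvPolynomial.support_map_subset _ _)
  have hex : {γ : J | γ ∈ Γ ∧ ¬ ∃ t : Fin 4 → k, On fk t ∧ γ = cl (emb U t) ∧
      Zr Φk (t 0) (t 1)}.ncard ≤ n * (Nat.sqrt (Nat.card Γ) + 1) := by
    rw [hcard]
    set S1 : Set J := {γ : J | γ ∈ Γ ∧ ¬ ∃ t : Fin 4 → k, On fk t ∧ γ = cl (emb U t) ∧
      Zr Φk (t 0) (t 1)} with hS1
    set S2 : Set ℕ := {j : ℕ | j < N ∧ ¬ ∃ A B : K[X], Mum f A B ∧ A.natDegree = 2 ∧
      SameCl (MI f A B) (I ^ j) ∧ MvPolynomial.eval (kum f A B) P = 0} with hS2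
    have hS2f : S2.Finite := (Set.finite_lt_nat N).subset fun j hj => hj.1
    have hsub : S1 ⊆ (fun j : ℕ => j • c) '' S2 := by
      rintro γ ⟨hγ, hγn⟩
      obtain ⟨j, hjN, hj⟩ := hΓj γ hγ
      refine ⟨j, ⟨hjN, ?_⟩, hj.symm⟩
      rintro ⟨A, B, hm, hA2, hs, hev⟩
      apply hγn
      have hmk := mum_map φ hm
      have hA2k : (A.map φ).natDegree = 2 := by rw [Polynomial.natDegree_map, hA2]
      have hon : On fk (vec (A.map φ) (B.map φ)) := on_vec hmk hA2k
      refine ⟨vec (A.map φ) (B.map φ), hon, ?_, ?_⟩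
      · rw [← hιc _ hon, clC, pA_vec hmk.monic hA2k, pB_vec hmk.deg hA2k hmk.monic, ← hmm,
          clI_same f (MI_ne f A B) (pow_ne_zero j hI) hs, hj, hcj]
      · have hz := hΦz k φ (vec (A.map φ) (B.map φ)) hon (by
          rw [GP_eval, pA_vec hmk.monic hA2k, pB_vec hmk.deg hA2k hmk.monic]
          have e1 : kum (f.map φ) (A.map φ) (B.map φ) = fun i => φ (kum f A B i) := by
            funext i
            exact kum_map φ f A B i
          rw [e1]
          have e2 := MvPolynomial.eval₂_comp_left φ (RingHom.id K) (kum f A B) P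
          rw [MvPolynomial.eval₂_id, hev, map_zero] at e2
          rw [RingHom.comp_id] at e2
          exact e2.symm)
        rw [Zr, MvPolynomial.aeval_def, hΦk, MvPolynomial.eval₂_map]
        exact hz
    have hle : (S1.ncard : ℝ) ≤ (n : ℝ) * ((Nat.sqrt N : ℕ) + 1) := by
      have h20 : S1.ncard ≤ S2.ncard :=
        le_trans (Set.ncard_le_ncard hsub (hS2f.image _)) (Set.ncard_image_le hS2f)
      have h21 : ((2 * e : ℕ) : ℝ) ≤ (n : ℝ) := by exact_mod_cast le_max_right _ _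
      calc (S1.ncard : ℝ) ≤ (S2.ncard : ℝ) := by exact_mod_cast h20
        _ ≤ e * (Real.sqrt N + 1) := hexc
        _ ≤ ((2 * e : ℕ) : ℝ) * ((Nat.sqrt N : ℕ) + 1) := sqrt_bound e N
        _ ≤ _ := mul_le_mul_of_nonneg_right h21 (by positivity)
    exact_mod_cast hle
  -- the steps
  obtain ⟨q, Φ, S, hq, hqg, hqd, hΦi, hΦdeg, hΦq, hS, hSc⟩ := hN0 k U fk g henv J th cl act Jk hJK
    Φk hΦk0 hΦkd Γ hΓf hΓJ (by rw [hcard]; exact hN_0) hex
  obtain ⟨Φs, T, hΦs, hTc, hT⟩ := hN1 k U fk g henv J th cl act Jk hJK q Φ hq hqg hΦi.ne_zero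
    hΦdeg hΦq Γ hΓf hΓJ (by rw [hcard]; exact hN_1) S hS hSc
  have hTs := h7 k U fk g henv J th cl act Jk hJK q hq Γ hΓf hΓJ Φs T hΦs hT
  obtain ⟨-, hsbg⟩ := h8 k U fk g henv J th cl act Jk hJK
  obtain ⟨H0, hH0⟩ := hsbg q hq
  have hset : {h : J | h ∈ Γ ∧ h ∈ Stb cl act q} = ((Γ ⊓ H0 : AddSubgroup J) : Set J) := by
    ext h
    constructor
    · rintro ⟨ha, hb'⟩
      exact ⟨ha, (hH0 h).mpr ⟨hΓJ ha, hb'⟩⟩
    · rintro ⟨ha, hb'⟩
      exact ⟨ha, ((hH0 h).mp hb').2⟩
  have hcH : Nat.card (Γ ⊓ H0 : AddSubgroup J) =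
      {h : J | h ∈ Γ ∧ h ∈ Stb cl act q}.ncard := by
    rw [hset]
    rfl
  have hbH : b ≤ Nat.card (Γ ⊓ H0 : AddSubgroup J) := by
    rw [hcH]
    by_contra hlt
    have hlt := not_le.mp hlt
    rw [hcard] at hTc
    have h30 : m1 * T.card ≤ m1 * (4 * b) := Nat.mul_le_mul le_rfl (le_trans hTs (by omega))
    have h31 : m1 * (4 * b) = 4 * m1 * b := by ring
    omega
  have hHf : Finite (Γ ⊓ H0 : AddSubgroup J) := by
    have : ((Γ ⊓ H0 : AddSubgroup J) : Set J) ⊆ (Γ : Set J) := fun x hx => hx.1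
    exact Set.Finite.subset (Set.toFinite (Γ : Set J)) this
  have hinf := hb k U fk g henv J th cl act Jk hJK q Φ hq hqg hqd hΦi hΦdeg hΦq (Γ ⊓ H0) hHf
    (fun h hh => (hH0 h).mp hh.2) hbH
  obtain ⟨R, hR0, hRd, hRz⟩ := hBG k U fk g henv J th cl act Jk hJK q Φ hq hΦi.ne_zero hΦdeg hΦq
  -- the thin subgroup
  refine ⟨k, inferInstance, inferInstance, φ, ⟨fk, hoddk.out, hfks⟩, hdedk,
    { carrier := {x | ι (Additive.ofMul x) ∈ H0}
      one_mem' := ?_
      mul_mem' := ?_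
      inv_mem' := ?_ }, R, rfl, ?_, hR0, le_trans hRd hBB, ?_⟩
  · intro x y hx hy
    have : ι (Additive.ofMul (x * y)) = ι (Additive.ofMul x) + ι (Additive.ofMul y) := by
      rw [ofMul_mul, map_add]
    change ι (Additive.ofMul (x * y)) ∈ H0
    rw [this]
    exact H0.add_mem hx hy
  · change ι (Additive.ofMul 1) ∈ H0
    rw [ofMul_one, map_zero]
    exact H0.zero_mem
  · intro x hx
    change ι (Additive.ofMul x⁻¹) ∈ H0
    rw [ofMul_inv, map_neg]
    exact H0.neg_mem hx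
  · -- infinite
    have hinf' : {x : ClassGroup (Q k fk) | ι (Additive.ofMul x) ∈ H0}.Infinite := by
      intro hfin
      apply hinf
      have himg : {h : J | h ∈ Jk ∧ h ∈ Stb cl act q} ⊆
          (fun x : ClassGroup (Q k fk) => ι (Additive.ofMul x)) ''
            {x : ClassGroup (Q k fk) | ι (Additive.ofMul x) ∈ H0} := by
        rintro h ⟨ha, hb'⟩
        have ha' := ha
        rw [← hιr] at ha'
        obtain ⟨x, hx⟩ := ha'
        refine ⟨Additive.toMul x, ?_, hx⟩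
        change ι x ∈ H0
        rw [hx]
        exact (hH0 h).mpr ⟨ha, hb'⟩
      exact (hfin.image _).subset himg
    exact hinf'.to_subtype
  · intro A B' h hm hA2 hmem
    have hon : On fk (vec A B') := on_vec hm hA2
    have hmem' : ι (Additive.ofMul (ClassGroup.mk0 ⟨MI fk A B', h⟩)) ∈ H0 := hmem
    rw [← clI_mk fk h] at hmem'
    have hcl : ι (clI fk (MI fk A B')) = cl (emb U (vec A B')) := by
      rw [← hιc _ hon, clC, pA_vec hm.monic hA2, pB_vec hm.deg hA2 hm.monic]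
    rw [hcl] at hmem'
    have := hRz (vec A B') hon ((hH0 _).mp hmem').2
    rwa [vec0, vec1] at this

end Pool.Agent.KDT.H89
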